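import Pool.Agent.Helper38.IA.St

/-!
# Project IA, module M6: one step of the derandomised choice of matchings
-/

set_option autoImplicit false
set_option linter.unusedSectionVars false

namespace Pool.Agent.Helper97.IA38

open Finset Pool.Agent.Helper93.IA Pool.Agent.Helper38.IA

section Inc

variable {X Y ι : Type} [DecidableEq X] [DecidableEq Y] [DecidableEq ι]

/-- increment of the number of used edges at `x` -/
def incX (P : ι → Finset X) (Q : ι → Finset Y) (i0 : ι) (N : X → Y) (i : ι) (x : X) : ℕ :=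
  if x ∈ P i0 ∧ N x ∈ Q i then 1 else 0

/-- increment of the number of used edges at `y` -/
def incY (P : ι → Finset X) (i0 : ι) (N : X → Y) (i : ι) (y : Y) : ℕ :=
  if ∃ x ∈ P i0, x ∈ P i ∧ N x = y then 1 else 0

theorem incX_le (P : ι → Finset X) (Q : ι → Finset Y) (i0 : ι) (N : X → Y) (i : ι) (x : X) :
    incX P Q i0 N i x ≤ 1 := by
  unfold incX
  split_ifs <;> simp

theorem incY_le (P : ι → Finset X) (i0 : ι) (N : X → Y) (i : ι) (y : Y) :
    incY P i0 N i y ≤ 1 := by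
  unfold incY
  split_ifs <;> simp

theorem incX_zero (P : ι → Finset X) (Q : ι → Finset Y) (i0 : ι) (N : X → Y) (i : ι) (x : X)
    (hx : x ∉ P i0) : incX P Q i0 N i x = 0 := by
  unfold incX
  rw [if_neg]
  exact fun h => hx h.1

theorem incY_zero (P : ι → Finset X) (Q : ι → Finset Y) (i0 : ι) (N : X → Y)
    (hN : Set.BijOn N (P i0) (Q i0)) (i : ι) (y : Y) (hy : y ∉ Q i0) : incY P i0 N i y = 0 := by
  unfold incY
  rw [if_neg]
  rintro ⟨x, hx, -, rfl⟩
  exact hy (Finset.mem_coe.1 (hN.mapsTo (Finset.mem_coe.2 hx)))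

theorem mem_Fr (H : Finset (X × Y)) (P : ι → Finset X) (M : ι → X → Y) (S : Finset ι)
    (e : X × Y) (h : e ∈ Fr H P M S) : e ∈ H ∧ ∀ j ∈ S, ¬ (e.1 ∈ P j ∧ M j e.1 = e.2) := by
  unfold Fr at h
  exact Finset.mem_filter.1 h

/-- the facts of M4 in terms of the increments -/
theorem upd (h4 : StM4) (P : ι → Finset X) (Q : ι → Finset Y) (M : ι → X → Y) (S : Finset ι)
    (i0 : ι) (hi0 : i0 ∉ S) :
    (∀ N : X → Y, BX P Q (Function.update M i0 N) (insert i0 S) =
      fun i x => BX P Q M S i x + incX P Q i0 N i x) ∧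
    (∀ N : X → Y, BY P (Function.update M i0 N) (insert i0 S) =
      fun i y => BY P M S i y + incY P i0 N i y) ∧
    ∀ (R : ℕ) (N : Fin R → X → Y), (∀ s, Set.BijOn (N s) (P i0) (Q i0)) →
      (∀ s s', s ≠ s' → ∀ x ∈ P i0, N s x ≠ N s' x) →
      (∀ i x, ∑ s, incX P Q i0 (N s) i x ≤ (Q i ∩ Q i0).card) ∧
      ∀ i y, ∑ s, incY P i0 (N s) i y ≤ (P i ∩ P i0).card := by
  obtain ⟨h1, h2, h3⟩ := h4 X Y ι P Q M S i0 hi0
  refine ⟨fun N => ?_, fun N => ?_, h3⟩
  · funext i x
    exact h1 N i x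
  · funext i y
    exact h2 N i y

end Inc

/-- the potential dominates each term -/
theorem term_le {X ι : Type} [Fintype ι] [DecidableEq X] [DecidableEq ι] (c : ℝ) (hc : 1 ≤ c)
    (P : ι → Finset X) (S : Finset ι) (B : ι → X → ℕ) (i0 : ι) (hi0 : i0 ∉ S) (x : X)
    (hx : x ∈ P i0) : (2 : ℝ) ^ B i0 x ≤ Ph c P S B := by
  unfold Ph
  have hc0 : 0 ≤ c := by linarith
  have h1 : ∀ i x, (0 : ℝ) ≤
      2 ^ B i x * c ^ ((univ \ S).filter fun j => j ≠ i ∧ x ∈ P j).card :=
    fun i x => by positivity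
  calc (2 : ℝ) ^ B i0 x
      ≤ 2 ^ B i0 x * c ^ ((univ \ S).filter fun j => j ≠ i0 ∧ x ∈ P j).card :=
        le_mul_of_one_le_right (by positivity) (one_le_pow₀ hc)
    _ ≤ ∑ x ∈ P i0, 2 ^ B i0 x * c ^ ((univ \ S).filter fun j => j ≠ i0 ∧ x ∈ P j).card :=
        Finset.single_le_sum
          (f := fun x => (2 : ℝ) ^ B i0 x * c ^ ((univ \ S).filter fun j => j ≠ i0 ∧ x ∈ P j).card)
          (fun x _ => h1 i0 x) hx
    _ ≤ _ := Finset.single_le_sum
          (f := fun i => ∑ x ∈ P i,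
            (2 : ℝ) ^ B i x * c ^ ((univ \ S).filter fun j => j ≠ i ∧ x ∈ P j).card)
          (fun i _ => Finset.sum_nonneg fun x _ => h1 i x) (by simp [hi0])

theorem Ph_nonneg {X ι : Type} [Fintype ι] [DecidableEq X] [DecidableEq ι] (c : ℝ) (hc : 1 ≤ c)
    (P : ι → Finset X) (S : Finset ι) (B : ι → X → ℕ) : 0 ≤ Ph c P S B := by
  unfold Ph
  have hc0 : 0 ≤ c := by linarith
  exact Finset.sum_nonneg fun i _ => Finset.sum_nonneg fun x _ => by positivity

/-- M6 -/
theorem hM6 : StM2 → StM3 → StM4 → StM5 → StM6 := by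
  intro h2 h3 h4 h5 X Y ι _ _ _ _ _ _ H P Q t b R μ S i0 M hR hcard hbig hP hQ hPP hQQ hi0 hG hPh
  have hc : (1 : ℝ) ≤ 1 + (μ : ℝ) / R := by
    have : (0 : ℝ) ≤ (μ : ℝ) / R := by positivity
    linarith
  have hX0 := Ph_nonneg _ hc P S (BX P Q M S)
  have hY0 := Ph_nonneg _ hc Q S (BY P M S)
  have hbX : ∀ x ∈ P i0, BX P Q M S i0 x < b := by
    intro x hx
    have h := term_le _ hc P S (BX P Q M S) i0 hi0 x hx
    have h' : (2 : ℝ) ^ BX P Q M S i0 x < 2 ^ b := by linarith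
    exact (pow_lt_pow_iff_right₀ (by norm_num)).1 h'
  have hbY : ∀ y ∈ Q i0, BY P M S i0 y < b := by
    intro y hy
    have h := term_le _ hc Q S (BY P M S) i0 hi0 y hy
    have h' : (2 : ℝ) ^ BY P M S i0 y < 2 ^ b := by linarith
    exact (pow_lt_pow_iff_right₀ (by norm_num)).1 h'
  obtain ⟨h5X, h5Y⟩ := h5 X Y ι H P Q M S i0 t (fun j hj => (hG.bij j hj).injOn)
  have hne : (P i0).Nonempty := by
    rw [← Finset.card_pos]
    have := hbig i0
    omega
  obtain ⟨N, hNb, hNG, hNd⟩ := h2 X Y (Fr H P M S) (P i0) (Q i0) (t + b) R hne (hcard i0)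
    (hbig i0)
    (fun x hx => (h5X x hx (hP i0 x hx)).trans (by have := hbX x hx; omega))
    (fun y hy => (h5Y y hy (hQ i0 y hy)).trans (by have := hbY y hy; omega))
  obtain ⟨uX, uY, cnt⟩ := upd h4 P Q M S i0 hi0
  obtain ⟨cX, cY⟩ := cnt R N hNb hNd
  have eX := h3 X ι P S i0 (BX P Q M S) R μ (fun s i x => incX P Q i0 (N s) i x) hR hi0
    (fun s i x => incX_le _ _ _ _ _ _) (fun s i x hx => incX_zero _ _ _ _ _ _ hx)
    (fun i hi x _ _ => (cX i x).trans (hQQ i i0 (fun e => hi (e ▸ Finset.mem_insert_self _ _))))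
  have eY := h3 Y ι Q S i0 (BY P M S) R μ (fun s i y => incY P i0 (N s) i y) hR hi0
    (fun s i y => incY_le _ _ _ _ _) (fun s i y hy => incY_zero _ _ _ _ (hNb s) _ _ hy)
    (fun i hi y _ _ => (cY i y).trans (hPP i i0 (fun e => hi (e ▸ Finset.mem_insert_self _ _))))
  have hRne : (Finset.univ : Finset (Fin R)).Nonempty := ⟨⟨0, hR⟩, Finset.mem_univ _⟩
  have hsum : ∑ s : Fin R,
      (Ph (1 + (μ : ℝ) / R) P (insert i0 S) (fun i x => BX P Q M S i x + incX P Q i0 (N s) i x) +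
        Ph (1 + (μ : ℝ) / R) Q (insert i0 S) (fun i y => BY P M S i y + incY P i0 (N s) i y)) ≤
      ∑ s : Fin R, (Ph (1 + (μ : ℝ) / R) P S (BX P Q M S) +
        Ph (1 + (μ : ℝ) / R) Q S (BY P M S)) := by
    rw [Finset.sum_add_distrib, Finset.sum_const, Finset.card_univ, Fintype.card_fin,
      nsmul_eq_mul, mul_add]
    exact add_le_add eX eY
  obtain ⟨s, -, hs⟩ := Finset.exists_le_of_sum_le hRne hsum
  refine ⟨N s, ⟨?_, ?_, ?_⟩, ?_⟩
  · intro i hi
    by_cases hii : i = i0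
    · subst hii
      rw [Function.update_self]
      exact hNb s
    · rw [Function.update_of_ne hii]
      exact hG.bij i ((Finset.mem_insert.1 hi).resolve_left hii)
  · intro i hi x hx
    by_cases hii : i = i0
    · subst hii
      rw [Function.update_self]
      exact (mem_Fr _ _ _ _ _ (hNG s x hx)).1
    · rw [Function.update_of_ne hii]
      exact hG.inH i ((Finset.mem_insert.1 hi).resolve_left hii) x hx
  · have key : ∀ j ∈ S, ∀ x ∈ P i0, x ∈ P j → M j x ≠ N s x := by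
      intro j hj x hx hxj he
      exact (mem_Fr _ _ _ _ _ (hNG s x hx)).2 j hj ⟨hxj, he⟩
    intro i hi j hj hij x hxi hxj
    by_cases hii : i = i0
    · have hji : j ≠ i0 := fun e => hij (hii.trans e.symm)
      rw [hii, Function.update_self, Function.update_of_ne hji]
      exact (key j ((Finset.mem_insert.1 hj).resolve_left hji) x (hii ▸ hxi) hxj).symm
    · rw [Function.update_of_ne hii]
      by_cases hji : j = i0
      · rw [hji, Function.update_self]
        exact key i ((Finset.mem_insert.1 hi).resolve_left hii) x (hji ▸ hxj) hxi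
      · rw [Function.update_of_ne hji]
        exact hG.dis i ((Finset.mem_insert.1 hi).resolve_left hii) j
          ((Finset.mem_insert.1 hj).resolve_left hji) hij x hxi hxj
  · rw [uX, uY]
    exact hs

end Pool.Agent.Helper97.IA38
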